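import Mathlib

set_option autoImplicit false

/-! The k-server problem and the two versions of the delayed k-server problem: definitions. -/

namespace Pool.Agent.Q226.DK

open Finset

variable {k : ℕ} {M : Type*}

/-- the total distance moved between the positions `X` and `Y` of the `k` servers -/
noncomputable def mv [MetricSpace M] (X Y : Fin k → M) : ℝ := ∑ i, dist (X i) (Y i)

/-! ### The ordinary problem -/

/-- A deterministic online algorithm for the `k`-server problem on `M` with initial positions `x0`:
after the requests of the list `h` (in order of arrival) the server `i` is at `pos h i`. -/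
structure Alg (k : ℕ) (M : Type*) (x0 : Fin k → M) where
  pos : List M → Fin k → M
  pos_nil : pos [] = x0
  /-- the request is served -/
  serves : ∀ (h : List M) (r : M), ∃ i, pos (h ++ [r]) i = r

/-- `Run x0 h X c`: starting in the positions `x0`, the servers can serve the requests of `h` one
after the other and end in the positions `X`, moving a total distance `c`. -/
inductive Run [MetricSpace M] (x0 : Fin k → M) : List M → (Fin k → M) → ℝ → Prop
  | nil : Run x0 [] x0 0
  | snoc {h : List M} {X : Fin k → M} {c : ℝ} (r : M) (Y : Fin k → M) :
      Run x0 h X c → (∃ i, Y i = r) → Run x0 (h ++ [r]) Y (c + mv X Y)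

/-- the optimal offline cost -/
noncomputable def opt [MetricSpace M] (x0 : Fin k → M) (h : List M) : ℝ :=
  sInf {c : ℝ | ∃ X, Run x0 h X c}

/-- the total distance moved by the algorithm on the request sequence `h` -/
noncomputable def Alg.cost [MetricSpace M] {x0 : Fin k → M} (A : Alg k M x0) (h : List M) : ℝ :=
  ∑ t ∈ range h.length, mv (A.pos (h.take t)) (A.pos (h.take (t + 1)))

/-- `A` is `C`-competitive -/
def Alg.Competitive [MetricSpace M] {x0 : Fin k → M} (A : Alg k M x0) (C : ℝ) : Prop :=
  ∃ K : ℝ, ∀ h : List M, A.cost h ≤ C * opt x0 h + K

/-- the competitiveness of the `k`-server problem on `M`, started in `x0`: the infimum of all `C`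
such that some deterministic online algorithm is `C`-competitive (`⊤` if there is none) -/
noncomputable def comp [MetricSpace M] (x0 : Fin k → M) : EReal :=
  sInf {c : EReal | ∃ C : ℝ, c = (C : EReal) ∧ ∃ A : Alg k M x0, A.Competitive C}

/-! ### The delayed problem -/

/-- the two versions of the delayed problem -/
inductive Version
  | a
  | b

/-- A deterministic online algorithm for the delayed `k`-server problem on `M` with initial
positions `x0` and initially frozen server `f0`. After the requests of `h` the server `i` is at
`pos h i`, and `frz h` is the frozen server, the one which served the last request of `h`. In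
version `b` the frozen server may not serve the next request. In version `a` it may do so without
moving (if the request is repeated). -/
structure DAlg (v : Version) (k : ℕ) (M : Type*) (x0 : Fin k → M) (f0 : Fin k) where
  pos : List M → Fin k → M
  frz : List M → Fin k
  pos_nil : pos [] = x0
  frz_nil : frz [] = f0
  /-- the frozen server is not moved -/
  frozen : ∀ (h : List M) (r : M), pos (h ++ [r]) (frz h) = pos h (frz h)
  /-- the request is served -/
  serves : ∀ (h : List M) (r : M), pos (h ++ [r]) (frz (h ++ [r])) = r
  /-- in version `b`, the frozen server does not serve the next request -/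
  changes : v = Version.b → ∀ (h : List M) (r : M), frz (h ++ [r]) ≠ frz h

/-- `DRun v x0 f0 h X f c`: starting in the positions `x0` with the frozen server `f0`, the servers
can serve the requests of `h` one after the other, following the rules of version `v`, such that
`X` are the final positions, `f` is the server that served last, and the total distance moved is
`c`. -/
inductive DRun [MetricSpace M] (v : Version) (x0 : Fin k → M) (f0 : Fin k) :
    List M → (Fin k → M) → Fin k → ℝ → Prop
  | nil : DRun v x0 f0 [] x0 f0 0
  | snoc {h : List M} {X : Fin k → M} {f : Fin k} {c : ℝ} (r : M) (Y : Fin k → M) (g : Fin k) :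
      DRun v x0 f0 h X f c → Y f = X f → Y g = r → (v = Version.b → g ≠ f) →
        DRun v x0 f0 (h ++ [r]) Y g (c + mv X Y)

/-- the optimal offline cost -/
noncomputable def dopt [MetricSpace M] (v : Version) (x0 : Fin k → M) (f0 : Fin k)
    (h : List M) : ℝ :=
  sInf {c : ℝ | ∃ X f, DRun v x0 f0 h X f c}

/-- the total distance moved by the algorithm on the request sequence `h` -/
noncomputable def DAlg.cost [MetricSpace M] {v : Version} {x0 : Fin k → M} {f0 : Fin k}
    (A : DAlg v k M x0 f0) (h : List M) : ℝ :=
  ∑ t ∈ range h.length, mv (A.pos (h.take t)) (A.pos (h.take (t + 1)))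

/-- `A` is `C`-competitive -/
def DAlg.Competitive [MetricSpace M] {v : Version} {x0 : Fin k → M} {f0 : Fin k}
    (A : DAlg v k M x0 f0) (C : ℝ) : Prop :=
  ∃ K : ℝ, ∀ h : List M, A.cost h ≤ C * dopt v x0 f0 h + K

/-- the competitiveness of version `v` of the delayed `k`-server problem on `M`, started in the
positions `x0` with the frozen server `f0` -/
noncomputable def dcomp [MetricSpace M] (v : Version) (x0 : Fin k → M) (f0 : Fin k) : EReal :=
  sInf {c : EReal | ∃ C : ℝ, c = (C : EReal) ∧ ∃ A : DAlg v k M x0 f0, A.Competitive C}

end Pool.Agent.Q226.DK
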