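import Pool.Agent.Q226.DK.Defs

set_option autoImplicit false

/-! Simulation of an algorithm for the ordinary problem by one for the delayed problem. -/

namespace Pool.Agent.Q226.DK

open Finset
open Classical

variable {k : ℕ} {M : Type*} [MetricSpace M]

theorem mv_nonneg (X Y : Fin k → M) : 0 ≤ mv X Y := Finset.sum_nonneg fun _ _ => dist_nonneg

theorem mv_self (X : Fin k → M) : mv X X = 0 := by simp [mv]

theorem mv_comm (X Y : Fin k → M) : mv X Y = mv Y X :=
  Finset.sum_congr rfl fun _ _ => dist_comm _ _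

theorem mv_tri (X Y Z : Fin k → M) : mv X Z ≤ mv X Y + mv Y Z := by
  unfold mv
  rw [← Finset.sum_add_distrib]
  exact Finset.sum_le_sum fun _ _ => dist_triangle _ _ _

theorem dist_le_mv (X Y : Fin k → M) (i : Fin k) : dist (X i) (Y i) ≤ mv X Y :=
  Finset.single_le_sum (f := fun i => dist (X i) (Y i)) (fun _ _ => dist_nonneg) (Finset.mem_univ i)

theorem mv_update (X : Fin k → M) (i : Fin k) (r : M) :
    mv X (Function.update X i r) = dist (X i) r := by
  unfold mv
  rw [Finset.sum_eq_single i]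
  · simp
  · intro j _ hj
    rw [Function.update_of_ne hj, dist_self]
  · intro h; exact absurd (Finset.mem_univ i) h

theorem Run.nonneg {x0 : Fin k → M} {h : List M} {X : Fin k → M} {c : ℝ} (hr : Run x0 h X c) :
    0 ≤ c := by
  induction hr with
  | nil => exact le_rfl
  | snoc r Y _ _ ih => exact add_nonneg ih (mv_nonneg _ _)

theorem DRun.nonneg {v : Version} {x0 : Fin k → M} {f0 : Fin k} {h : List M} {X : Fin k → M}
    {f : Fin k} {c : ℝ} (hr : DRun v x0 f0 h X f c) : 0 ≤ c := by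
  induction hr with
  | nil => exact le_rfl
  | snoc r Y g _ _ _ _ ih => exact add_nonneg ih (mv_nonneg _ _)

theorem opt_le {x0 : Fin k → M} {h : List M} {X : Fin k → M} {c : ℝ} (hr : Run x0 h X c) :
    opt x0 h ≤ c :=
  csInf_le ⟨0, by rintro c ⟨X, hX⟩; exact hX.nonneg⟩ ⟨X, hr⟩

theorem opt_nonneg (x0 : Fin k → M) (h : List M) : 0 ≤ opt x0 h :=
  Real.sInf_nonneg (by rintro c ⟨X, hX⟩; exact hX.nonneg)

theorem dopt_le {v : Version} {x0 : Fin k → M} {f0 : Fin k} {h : List M} {X : Fin k → M}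
    {f : Fin k} {c : ℝ} (hr : DRun v x0 f0 h X f c) : dopt v x0 f0 h ≤ c :=
  csInf_le ⟨0, by rintro c ⟨X, f, hX⟩; exact hX.nonneg⟩ ⟨X, f, hr⟩

theorem dopt_nonneg (v : Version) (x0 : Fin k → M) (f0 : Fin k) (h : List M) :
    0 ≤ dopt v x0 f0 h :=
  Real.sInf_nonneg (by rintro c ⟨X, f, hX⟩; exact hX.nonneg)

omit [MetricSpace M] in
/-- the sums defining the costs -/
theorem sum_snoc (F : List M → List M → ℝ) (h : List M) (r : M) :
    ∑ t ∈ range (h ++ [r]).length, F ((h ++ [r]).take t) ((h ++ [r]).take (t + 1))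
      = (∑ t ∈ range h.length, F (h.take t) (h.take (t + 1))) + F h (h ++ [r]) := by
  have e : (h ++ [r]).length = h.length + 1 := by simp
  rw [e, Finset.sum_range_succ]
  congr 1
  · apply Finset.sum_congr rfl
    intro t ht
    rw [Finset.mem_range] at ht
    rw [List.take_append_of_le_length ht.le, List.take_append_of_le_length ht]
  · rw [List.take_append_of_le_length le_rfl, List.take_length, List.take_of_length_le (by simp)]

theorem Alg.cost_snoc {x0 : Fin k → M} (A : Alg k M x0) (h : List M) (r : M) :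
    A.cost (h ++ [r]) = A.cost h + mv (A.pos h) (A.pos (h ++ [r])) :=
  sum_snoc (fun a b => mv (A.pos a) (A.pos b)) h r

theorem DAlg.cost_snoc {v : Version} {x0 : Fin k → M} {f0 : Fin k} (A : DAlg v k M x0 f0)
    (h : List M) (r : M) :
    A.cost (h ++ [r]) = A.cost h + mv (A.pos h) (A.pos (h ++ [r])) :=
  sum_snoc (fun a b => mv (A.pos a) (A.pos b)) h r

theorem Alg.run {x0 : Fin k → M} (A : Alg k M x0) (h : List M) : Run x0 h (A.pos h) (A.cost h) := by
  induction h using List.reverseRecOn with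
  | nil =>
    rw [A.pos_nil]
    have : A.cost [] = 0 := by simp [Alg.cost]
    rw [this]
    exact Run.nil
  | append_singleton h r ih =>
    rw [A.cost_snoc]
    exact Run.snoc r _ ih (A.serves h r)

theorem DAlg.run {v : Version} {x0 : Fin k → M} {f0 : Fin k} (A : DAlg v k M x0 f0)
    (h : List M) : DRun v x0 f0 h (A.pos h) (A.frz h) (A.cost h) := by
  induction h using List.reverseRecOn with
  | nil =>
    rw [A.pos_nil, A.frz_nil]
    have : A.cost [] = 0 := by simp [DAlg.cost]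
    rw [this]
    exact DRun.nil
  | append_singleton h r ih =>
    rw [A.cost_snoc]
    exact DRun.snoc r _ _ ih (A.frozen h r) (A.serves h r) (fun hv => A.changes hv h r)

/-- `N` times the requests `p, q` after the requests of `h` -/
def feed (h : List M) (p q : M) : ℕ → List M
  | 0 => h
  | N + 1 => (feed h p q N ++ [p]) ++ [q]

theorem run_feed {x0 : Fin k → M} {h : List M} {X Y : Fin k → M} {c : ℝ} (hr : Run x0 h X c)
    {p q : M} (hp : ∃ i, Y i = p) (hq : ∃ i, Y i = q) (N : ℕ) :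
    Run x0 (feed h p q (N + 1)) Y (c + mv X Y) := by
  induction N with
  | zero =>
    have h1 : Run x0 (h ++ [p]) Y (c + mv X Y) := Run.snoc p Y hr hp
    have h2 := Run.snoc q Y h1 hq
    rw [mv_self, add_zero] at h2
    exact h2
  | succ N ih =>
    have h1 := Run.snoc p Y ih hp
    rw [mv_self, add_zero] at h1
    have h2 := Run.snoc q Y h1 hq
    rw [mv_self, add_zero] at h2
    exact h2

theorem cost_feed {x0 : Fin k → M} (A : Alg k M x0) (h : List M) (p q : M) (N : ℕ) :
    A.cost h + mv (A.pos h) (A.pos (feed h p q N)) ≤ A.cost (feed h p q N) := by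
  induction N with
  | zero =>
    show A.cost h + mv (A.pos h) (A.pos h) ≤ A.cost h
    rw [mv_self, add_zero]
  | succ N ih =>
    show A.cost h + mv (A.pos h) (A.pos ((feed h p q N ++ [p]) ++ [q])) ≤
      A.cost ((feed h p q N ++ [p]) ++ [q])
    rw [A.cost_snoc, A.cost_snoc]
    have h1 := mv_tri (A.pos h) (A.pos (feed h p q N)) (A.pos ((feed h p q N ++ [p]) ++ [q]))
    have h2 := mv_tri (A.pos (feed h p q N)) (A.pos (feed h p q N ++ [p]))
      (A.pos ((feed h p q N ++ [p]) ++ [q]))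
    linarith

/-- If two points are requested alternately, both are almost covered at some time. -/
theorem cover (hk : 2 ≤ k) {x0 : Fin k → M} (A : Alg k M x0) {C : ℝ} (hA : A.Competitive C)
    (h : List M) {p q : M} (hpq : p ≠ q) {ε : ℝ} (hε : 0 < ε) :
    ∃ N : ℕ, ∃ i j : Fin k, i ≠ j ∧ A.pos (feed h p q (N + 1)) i = q ∧
      dist (A.pos (feed h p q (N + 1)) j) p ≤ ε := by
  by_contra hcon
  push Not at hcon
  have hd : 0 < dist p q := dist_pos.2 hpq
  have hη : 0 < min ε (dist p q) := lt_min hε hd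
  have hstep : ∀ N, A.cost (feed h p q N) + min ε (dist p q) ≤ A.cost (feed h p q (N + 1)) := by
    intro N
    show A.cost (feed h p q N) + min ε (dist p q) ≤ A.cost ((feed h p q N ++ [p]) ++ [q])
    rw [A.cost_snoc, A.cost_snoc]
    obtain ⟨j, hj⟩ := A.serves (feed h p q N) p
    obtain ⟨i, hi⟩ := A.serves (feed h p q N ++ [p]) q
    have h1 := mv_nonneg (A.pos (feed h p q N)) (A.pos (feed h p q N ++ [p]))
    have h2 := dist_le_mv (A.pos (feed h p q N ++ [p])) (A.pos ((feed h p q N ++ [p]) ++ [q])) j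
    rw [hj] at h2
    by_cases hij : i = j
    · rw [← hij, hi] at h2
      have := min_le_right ε (dist p q)
      linarith
    · have h3 := hcon N i j hij hi
      have h4 : A.pos (feed h p q (N + 1)) j = A.pos ((feed h p q N ++ [p]) ++ [q]) j := rfl
      rw [h4, dist_comm] at h3
      have := min_le_left ε (dist p q)
      linarith
  have hlin : ∀ N : ℕ, N * min ε (dist p q) ≤ A.cost (feed h p q N) := by
    intro N
    induction N with
    | zero =>
      rw [Nat.cast_zero, zero_mul]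
      exact (A.run _).nonneg
    | succ N ih =>
      have := hstep N
      push_cast
      linarith
  obtain ⟨K, hK⟩ := hA
  have hk0 : 0 < k := by omega
  have hk1 : 1 < k := by omega
  obtain ⟨Y, hY⟩ : ∃ Y : Fin k → M, Y = fun i => if i = (⟨0, hk0⟩ : Fin k) then p else q := ⟨_, rfl⟩
  have hYp : ∃ i, Y i = p := ⟨⟨0, hk0⟩, by rw [hY]; simp⟩
  have hYq : ∃ i, Y i = q := ⟨⟨1, hk1⟩, by rw [hY]; simp⟩
  obtain ⟨B, hB⟩ : ∃ B, B = A.cost h + mv (A.pos h) Y := ⟨_, rfl⟩
  have hopt : ∀ N, opt x0 (feed h p q (N + 1)) ≤ B := by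
    intro N
    rw [hB]
    exact opt_le (run_feed (A.run h) hYp hYq N)
  obtain ⟨N, hN⟩ := exists_nat_gt ((|C| * B + K) / min ε (dist p q))
  rw [div_lt_iff₀ hη] at hN
  have h1 := hlin (N + 1)
  have h2 := hK (feed h p q (N + 1))
  have h3 : C * opt x0 (feed h p q (N + 1)) ≤ |C| * B :=
    (mul_le_mul_of_nonneg_right (le_abs_self C) (opt_nonneg _ _)).trans
      (mul_le_mul_of_nonneg_left (hopt N) (abs_nonneg C))
  push_cast at h1
  have h4 : 0 < min ε (dist p q) := hη
  nlinarith

/-- a state of the simulation: the requests fed to the algorithm so far, the positions of the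
servers, the frozen server and the matching with the servers of the algorithm -/
structure SS (k : ℕ) (M : Type*) where
  h : List M
  X : Fin k → M
  f : Fin k
  π : Equiv.Perm (Fin k)
  n : ℕ

/-- the movement of the servers of the simulation -/
theorem move_bound (X X' z z' : Fin k → M) (a : Equiv.Perm (Fin k)) (f j : Fin k)
    (π : Equiv.Perm (Fin k)) (hπ : π = a.trans (Equiv.swap (a f) j)) (hf : X' f = X f) :
    mv X X' ≤ mv z z' + (∑ i, dist (X i) (z (a i))) + ∑ i, dist (X' i) (z' (π i)) := by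
  have h1 : ∑ i, dist (X i) (z' (a i)) ≤ (∑ i, dist (X i) (z (a i))) + mv z z' := by
    have e : mv z z' = ∑ i, dist (z (a i)) (z' (a i)) :=
      (Equiv.sum_comp a (fun i => dist (z i) (z' i))).symm
    rw [e, ← Finset.sum_add_distrib]
    exact Finset.sum_le_sum fun i _ => dist_triangle _ _ _
  have h2 : mv X X' ≤ (∑ i, dist (X i) (z' (a i))) + ∑ i, dist (X' i) (z' (π i)) := by
    have htri : ∀ i, dist (X i) (X' i) ≤ dist (X i) (z' (π i)) + dist (X' i) (z' (π i)) := by
      intro i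
      rw [dist_comm (X' i)]
      exact dist_triangle _ _ _
    by_cases haj : a f = j
    · have hπa : π = a := by rw [hπ, haj]; simp
      unfold mv
      rw [← Finset.sum_add_distrib]
      apply Finset.sum_le_sum
      intro i _
      have := htri i
      rw [hπa] at this ⊢
      exact this
    · obtain ⟨g, hg⟩ : ∃ g, g = a.symm j := ⟨_, rfl⟩
      have hag : a g = j := by rw [hg]; simp
      have hgf : g ≠ f := by
        rintro rfl
        exact haj hag
      have hπf : π f = j := by rw [hπ]; simp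
      have hπg : π g = a f := by rw [hπ]; simp [hag]
      have hπi : ∀ i, i ≠ f → i ≠ g → π i = a i := by
        intro i h1 h2
        rw [hπ, Equiv.trans_apply, Equiv.swap_apply_of_ne_of_ne]
        · intro h; exact h1 (a.injective h)
        · intro h; exact h2 (a.injective (h.trans hag.symm))
      unfold mv
      rw [← Finset.sum_add_distrib]
      rw [← Finset.add_sum_erase _ _ (Finset.mem_univ f),
        ← Finset.add_sum_erase _ _ (Finset.mem_erase.2 ⟨hgf, Finset.mem_univ g⟩),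
        ← Finset.add_sum_erase univ (fun i => dist (X i) (z' (a i)) + dist (X' i) (z' (π i)))
          (Finset.mem_univ f),
        ← Finset.add_sum_erase (univ.erase f)
          (fun i => dist (X i) (z' (a i)) + dist (X' i) (z' (π i)))
          (Finset.mem_erase.2 ⟨hgf, Finset.mem_univ g⟩)]
      have h3 : ∑ i ∈ (univ.erase f).erase g, dist (X i) (X' i) ≤
          ∑ i ∈ (univ.erase f).erase g, (dist (X i) (z' (a i)) + dist (X' i) (z' (π i))) := by
        apply Finset.sum_le_sum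
        intro i hi
        rw [Finset.mem_erase, Finset.mem_erase] at hi
        have := htri i
        rw [hπi i hi.2.1 hi.1] at this ⊢
        exact this
      have h4 := htri g
      rw [hπg] at h4
      have h5 : dist (X g) (z' (a f)) ≤ dist (X g) (z' j) + dist (X f) (z' j)
          + dist (X f) (z' (a f)) := by
        have e1 := dist_triangle (X g) (z' j) (z' (a f))
        have e2 := dist_triangle (z' j) (X f) (z' (a f))
        rw [dist_comm (z' j) (X f)] at e2
        linarith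
      rw [hf, dist_self, hπf, hπg, hag]
      linarith
  linarith

/-- one step of the simulation -/
theorem sim_step (hk : 2 ≤ k) {x0 : Fin k → M} (A : Alg k M x0) {C : ℝ} (hA : A.Competitive C)
    (v : Version) (hv : v = Version.b → ∀ (p : M) (ε : ℝ), 0 < ε → ∃ q, q ≠ p ∧ dist q p < ε)
    (s : SS k M) (r : M) : ∃ s' : SS k M,
      s'.X s.f = s.X s.f ∧ s'.X s'.f = r ∧ (v = Version.b → s'.f ≠ s.f) ∧
      ((∑ i, dist (s.X i) (A.pos s.h (s.π i)) ≤ 2 * (1 / 2 : ℝ) ^ s.n) →
        (∑ i, dist (s'.X i) (A.pos s'.h (s'.π i)) ≤ 2 * (1 / 2 : ℝ) ^ s'.n) ∧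
        mv s.X s'.X + A.cost s.h ≤ A.cost s'.h + 6 * ((1 / 2 : ℝ) ^ s.n - (1 / 2 : ℝ) ^ s'.n)) ∧
      (∀ (Z Y : Fin k → M) (c : ℝ) (g g' : Fin k), Run x0 s.h Z c → Y g = s.X s.f → Y g' = r →
        (v = Version.b → g' ≠ g) →
          ∃ (Z' : Fin k → M) (c' : ℝ), Run x0 s'.h Z' c' ∧
            c' + mv Z' Y ≤ c + mv Z Y + 2 * ((1 / 2 : ℝ) ^ s.n - (1 / 2 : ℝ) ^ s'.n)) := by
  by_cases hsame : r = s.X s.f ∧ v ≠ Version.b
  · obtain ⟨hr, hvb⟩ := hsame
    refine ⟨s, rfl, hr.symm, fun h => absurd h hvb, ?_, ?_⟩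
    · intro h
      refine ⟨h, ?_⟩
      rw [mv_self]
      linarith
    · intro Z Y c g g' hrun _ _ _
      exact ⟨Z, c, hrun, by linarith⟩
  · -- the two points to be requested alternately
    obtain ⟨p, hp⟩ : ∃ p, p = s.X s.f := ⟨_, rfl⟩
    obtain ⟨ε, hε⟩ : ∃ ε : ℝ, ε = (1 / 2 : ℝ) ^ (s.n + 1) := ⟨_, rfl⟩
    have hε0 : 0 < ε := by rw [hε]; positivity
    have hq : ∃ q, q ≠ p ∧ dist q r ≤ ε ∧ (q = r ∨ v = Version.b) := by
      by_cases hrp : r = p
      · have hvb : v = Version.b := by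
          by_contra hvb
          exact hsame ⟨hrp.trans hp, hvb⟩
        obtain ⟨q, h1, h2⟩ := hv hvb p ε hε0
        exact ⟨q, h1, by rw [hrp]; exact h2.le, Or.inr hvb⟩
      · exact ⟨r, hrp, by rw [dist_self]; exact hε0.le, Or.inl rfl⟩
    obtain ⟨q, hqp, hqr, hqv⟩ := hq
    obtain ⟨N, l, j, hlj, hl, hj⟩ := cover hk A hA s.h (Ne.symm hqp) hε0
    obtain ⟨H, hH⟩ : ∃ H, H = feed s.h p q (N + 1) := ⟨_, rfl⟩
    rw [← hH] at hl hj
    have hcost := cost_feed A s.h p q (N + 1)
    rw [← hH] at hcost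
    -- the new matching
    obtain ⟨π, hπ⟩ : ∃ π : Equiv.Perm (Fin k), π = s.π.trans (Equiv.swap (s.π s.f) j) := ⟨_, rfl⟩
    have hπf : π s.f = j := by rw [hπ]; simp
    obtain ⟨g, hg⟩ : ∃ g, g = π.symm l := ⟨_, rfl⟩
    have hπg : π g = l := by rw [hg]; simp
    have hgf : g ≠ s.f := by
      rintro rfl
      exact hlj (hπg.symm.trans hπf)
    obtain ⟨X, hX⟩ : ∃ X : Fin k → M, X = fun i => if i = s.f then p else if i = g then r
      else A.pos H (π i) := ⟨_, rfl⟩
    have hXf : X s.f = p := by rw [hX]; simp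
    have hXg : X g = r := by rw [hX]; simp [hgf]
    have hXi : ∀ i, i ≠ s.f → i ≠ g → X i = A.pos H (π i) := by
      intro i h1 h2
      rw [hX]
      simp [h1, h2]
    -- the new error
    have herr : ∑ i, dist (X i) (A.pos H (π i)) ≤ 2 * ε := by
      have e1 : ∀ i ∈ (univ.erase s.f).erase g, dist (X i) (A.pos H (π i)) = 0 := by
        intro i hi
        rw [Finset.mem_erase, Finset.mem_erase] at hi
        rw [hXi i hi.2.1 hi.1, dist_self]
      rw [← Finset.add_sum_erase _ _ (Finset.mem_univ s.f),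
        ← Finset.add_sum_erase _ _ (Finset.mem_erase.2 ⟨hgf, Finset.mem_univ g⟩),
        Finset.sum_eq_zero e1, hXf, hXg, hπf, hπg, hl]
      rw [dist_comm] at hj
      rw [dist_comm] at hqr
      linarith
    refine ⟨⟨H, X, g, π, s.n + 1⟩, ?_, ?_, fun _ => hgf, ?_, ?_⟩
    · show X s.f = s.X s.f
      rw [hXf, hp]
    · exact hXg
    · intro hold
      show (∑ i, dist (X i) (A.pos H (π i)) ≤ 2 * (1 / 2 : ℝ) ^ (s.n + 1)) ∧
        mv s.X X + A.cost s.h ≤ A.cost H + 6 * ((1 / 2 : ℝ) ^ s.n - (1 / 2 : ℝ) ^ (s.n + 1))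
      rw [← hε]
      refine ⟨herr, ?_⟩
      have hεn : (1 / 2 : ℝ) ^ s.n = 2 * ε := by rw [hε, pow_succ]; ring
      rw [hεn] at hold ⊢
      -- the movement
      have key : mv s.X X ≤ mv (A.pos s.h) (A.pos H) + (∑ i, dist (s.X i) (A.pos s.h (s.π i)))
          + ∑ i, dist (X i) (A.pos H (π i)) := by
        have hXf' : X s.f = s.X s.f := hXf.trans hp
        exact move_bound s.X X (A.pos s.h) (A.pos H) s.π s.f j π hπ hXf'
      linarith
    · intro Z Y c g1 g' hrun hY1 hY2 hne
      show ∃ (Z' : Fin k → M) (c' : ℝ), Run x0 H Z' c' ∧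
            c' + mv Z' Y ≤ c + mv Z Y + 2 * ((1 / 2 : ℝ) ^ s.n - (1 / 2 : ℝ) ^ (s.n + 1))
      have hεn : (1 / 2 : ℝ) ^ s.n = 2 * ε := by rw [hε, pow_succ]; ring
      rw [← hε, hεn]
      have hg1 : g1 ≠ g' := by
        intro h
        rcases hqv with h1 | h1
        · apply hqp
          rw [h1, hp, ← hY1, ← hY2, h]
        · exact hne h1 h.symm
      obtain ⟨Z', hZ'⟩ : ∃ Z', Z' = Function.update Y g' q := ⟨_, rfl⟩
      have hZp : ∃ i, Z' i = p := ⟨g1, by rw [hZ', Function.update_of_ne hg1, hY1, hp]⟩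
      have hZq : ∃ i, Z' i = q := ⟨g', by rw [hZ']; simp⟩
      refine ⟨Z', c + mv Z Z', by rw [hH]; exact run_feed hrun hZp hZq N, ?_⟩
      have h1 : mv Y Z' ≤ ε := by
        rw [hZ', mv_update, hY2, dist_comm]; exact hqr
      have h2 := mv_tri Z Y Z'
      rw [mv_comm] at h1
      rw [mv_comm Y Z'] at h2
      linarith

/-- A `C`-competitive algorithm for the ordinary problem gives one for the delayed problem. -/
theorem sim (hk : 2 ≤ k) {x0 : Fin k → M} (A : Alg k M x0) {C : ℝ} (hA : A.Competitive C)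
    (v : Version) (hv : v = Version.b → ∀ (p : M) (ε : ℝ), 0 < ε → ∃ q, q ≠ p ∧ dist q p < ε)
    (f0 : Fin k) : ∃ D : DAlg v k M x0 f0, D.Competitive C := by
  choose nx h1 h2 h3 h4 h5 using sim_step hk A hA v hv
  let s0 : SS k M := ⟨[], x0, f0, Equiv.refl _, 0⟩
  let st : List M → SS k M := fun h => h.foldl nx s0
  have st_snoc : ∀ h r, st (h ++ [r]) = nx (st h) r := by
    intro h r
    show (h ++ [r]).foldl nx s0 = _
    rw [List.foldl_append]
    rfl
  let D : DAlg v k M x0 f0 :=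
    { pos := fun h => (st h).X
      frz := fun h => (st h).f
      pos_nil := rfl
      frz_nil := rfl
      frozen := fun h r => by
        show (st (h ++ [r])).X (st h).f = (st h).X (st h).f
        rw [st_snoc]; exact h1 _ _
      serves := fun h r => by
        show (st (h ++ [r])).X (st (h ++ [r])).f = r
        rw [st_snoc]; exact h2 _ _
      changes := fun hvb h r => by
        show (st (h ++ [r])).f ≠ (st h).f
        rw [st_snoc]; exact h3 _ _ hvb }
  refine ⟨D, ?_⟩
  -- the invariant of the states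
  have inv : ∀ ρ : List M,
      (∑ i, dist ((st ρ).X i) (A.pos (st ρ).h ((st ρ).π i)) ≤ 2 * (1 / 2 : ℝ) ^ (st ρ).n) ∧
      D.cost ρ ≤ A.cost (st ρ).h + 6 * (1 - (1 / 2 : ℝ) ^ (st ρ).n) := by
    intro ρ
    induction ρ using List.reverseRecOn with
    | nil =>
      have e1 : st [] = s0 := rfl
      rw [e1]
      have e2 : D.cost [] = 0 := by simp [DAlg.cost]
      have e3 : A.cost s0.h = 0 := by simp [Alg.cost, s0]
      rw [e2, e3]
      constructor
      · show ∑ i, dist (x0 i) (A.pos [] i) ≤ 2 * (1 / 2 : ℝ) ^ 0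
        rw [A.pos_nil]
        simp
      · show (0 : ℝ) ≤ 0 + 6 * (1 - (1 / 2 : ℝ) ^ 0)
        norm_num
    | append_singleton ρ r ih =>
      obtain ⟨i1, i2⟩ := ih
      obtain ⟨j1, j2⟩ := h4 (st ρ) r i1
      rw [← st_snoc] at j1 j2
      refine ⟨j1, ?_⟩
      rw [D.cost_snoc]
      have e : mv (D.pos ρ) (D.pos (ρ ++ [r])) = mv (st ρ).X (st (ρ ++ [r])).X := rfl
      rw [e]
      linarith
  have hpow : ∀ n : ℕ, (0 : ℝ) ≤ (1 / 2 : ℝ) ^ n := fun n => by positivity
  -- comparison of the runs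
  have runs : ∀ (ρ : List M) (Y : Fin k → M) (g : Fin k) (c : ℝ), DRun v x0 f0 ρ Y g c →
      Y g = (st ρ).X (st ρ).f ∧ ∃ (Z : Fin k → M) (c' : ℝ), Run x0 (st ρ).h Z c' ∧
        c' + mv Z Y ≤ c + 2 * (1 - (1 / 2 : ℝ) ^ (st ρ).n) := by
    intro ρ Y g c hrun
    induction hrun with
    | nil =>
      refine ⟨rfl, x0, 0, Run.nil, ?_⟩
      show 0 + mv x0 x0 ≤ 0 + 2 * (1 - (1 / 2 : ℝ) ^ 0)
      rw [mv_self]
      norm_num
    | @snoc ρ X f c r Y g hrun hf hg hne ih =>
      obtain ⟨i1, Z, c', i2, i3⟩ := ih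
      have hgr : Y g = (st (ρ ++ [r])).X (st (ρ ++ [r])).f := by
        rw [hg, st_snoc, h2]
      refine ⟨hgr, ?_⟩
      obtain ⟨Z', c'', j1, j2⟩ := h5 (st ρ) r Z Y c' f g i2 (hf.trans i1) hg hne
      rw [← st_snoc] at j1 j2
      refine ⟨Z', c'', j1, ?_⟩
      have := mv_tri Z X Y
      linarith
  have hopt : ∀ ρ, opt x0 (st ρ).h ≤ dopt v x0 f0 ρ + 2 := by
    intro ρ
    have : opt x0 (st ρ).h - 2 ≤ dopt v x0 f0 ρ := by
      have hne : {c : ℝ | ∃ X f, DRun v x0 f0 ρ X f c}.Nonempty := ⟨_, _, _, D.run ρ⟩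
      refine le_csInf hne ?_
      rintro c ⟨Y, g, hrun⟩
      obtain ⟨-, Z, c', j1, j2⟩ := runs ρ Y g c hrun
      have e1 := opt_le j1
      have e2 := mv_nonneg Z Y
      have e3 := hpow (st ρ).n
      linarith
    linarith
  have hcost : ∀ ρ, D.cost ρ ≤ A.cost (st ρ).h + 6 := by
    intro ρ
    have e1 := (inv ρ).2
    have e3 := hpow (st ρ).n
    linarith
  obtain ⟨K, hK⟩ := hA
  rcases le_or_gt 0 C with hC | hC
  · refine ⟨2 * C + K + 6, fun ρ => ?_⟩
    have e1 := hcost ρ
    have e2 := hK (st ρ).h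
    have e3 := mul_le_mul_of_nonneg_left (hopt ρ) hC
    linarith
  · have hB : ∀ ρ, D.cost ρ ≤ K + 6 := by
      intro ρ
      have e1 := hcost ρ
      have e2 := hK (st ρ).h
      have e3 := mul_nonpos_of_nonpos_of_nonneg hC.le (opt_nonneg x0 (st ρ).h)
      linarith
    refine ⟨K + 6 - C * (K + 6), fun ρ => ?_⟩
    have e1 := hB ρ
    have e2 := (dopt_le (D.run ρ)).trans e1
    have e3 := mul_le_mul_of_nonpos_left e2 hC.le
    linarith

theorem dcomp_le_comp (hk : 2 ≤ k) (x0 : Fin k → M) (f0 : Fin k) (v : Version)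
    (hv : v = Version.b → ∀ (p : M) (ε : ℝ), 0 < ε → ∃ q, q ≠ p ∧ dist q p < ε) :
    dcomp v x0 f0 ≤ comp x0 := by
  apply sInf_le_sInf
  rintro c ⟨C, rfl, A, hA⟩
  exact ⟨C, rfl, sim hk A hA v hv f0⟩

end Pool.Agent.Q226.DK
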