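import Pool.Agent.Q226.DK.Sim

set_option autoImplicit false

/-! Uniform spaces with exactly `k` points. -/

namespace Pool.Agent.Q226.DK

open Finset
open Classical

/-- the space with `k` points, any two of them at distance `1` -/
def Uni (k : ℕ) : Type := Fin k

noncomputable instance (k : ℕ) : MetricSpace (Uni k) where
  dist x y := if x = y then 0 else 1
  dist_self x := by simp
  dist_comm x y := by
    show (if x = y then (0 : ℝ) else 1) = if y = x then 0 else 1
    by_cases h : x = y
    · simp [h]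
    · rw [if_neg h, if_neg (fun h' => h h'.symm)]
  dist_triangle x y z := by
    show (if x = z then (0 : ℝ) else 1) ≤ (if x = y then (0 : ℝ) else 1) + if y = z then 0 else 1
    by_cases h : x = y
    · rw [h]; simp
    · rw [if_neg h]
      split_ifs <;> norm_num
  eq_of_dist_eq_zero := by
    intro x y h
    by_contra hxy
    have : (if x = y then (0 : ℝ) else 1) = 0 := h
    rw [if_neg hxy] at this
    exact one_ne_zero this

variable {k : ℕ}

theorem uni_dist (x y : Uni k) : dist x y = if x = y then 0 else 1 := rfl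

theorem uni_dist_le (x y : Uni k) : dist x y ≤ 1 := by
  rw [uni_dist]; split_ifs <;> norm_num

theorem uni_dist_ne {x y : Uni k} (h : x ≠ y) : dist x y = 1 := by
  rw [uni_dist, if_neg h]

theorem uni_mv_le (X Y : Fin k → Uni k) : mv X Y ≤ k := by
  have : mv X Y ≤ ∑ _i : Fin k, (1 : ℝ) := Finset.sum_le_sum fun i _ => uni_dist_le _ _
  simpa using this

/-- the ordinary problem is trivial on a space with `k` points -/
theorem uni_alg (x0 : Fin k → Uni k) : ∃ A : Alg k (Uni k) x0, A.Competitive 0 := by
  let A : Alg k (Uni k) x0 :=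
    { pos := fun h => if h = [] then x0 else fun i => (i : Uni k)
      pos_nil := by simp
      serves := fun h r => ⟨r, by simp⟩ }
  refine ⟨A, k, ?_⟩
  intro h
  rw [zero_mul, zero_add]
  have hA : ∀ (h : List (Uni k)), h ≠ [] → A.pos h = fun i => (i : Uni k) := by
    intro h hh
    show (if h = [] then x0 else fun i => (i : Uni k)) = _
    rw [if_neg hh]
    rfl
  have key : A.cost h ≤ mv (A.pos []) (A.pos h) := by
    induction h using List.reverseRecOn with
    | nil =>
      have : A.cost [] = 0 := by simp [Alg.cost]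
      rw [this]
      exact mv_nonneg _ _
    | append_singleton h r ih =>
      rw [A.cost_snoc]
      by_cases hh : h = []
      · subst hh
        have : A.cost [] = 0 := by simp [Alg.cost]
        rw [this, zero_add]
      · rw [hA (h ++ [r]) (by simp), hA h hh, mv_self, add_zero]
        rw [hA h hh] at ih
        exact ih
  exact key.trans (uni_mv_le _ _)

/-- a page which is not covered by the servers other than the frozen one -/
theorem exists_page (X : Fin k → Uni k) (f : Fin k) : ∃ q : Uni k, ∀ i, i ≠ f → X i ≠ q := by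
  by_contra hcon
  push Not at hcon
  choose g hg1 hg2 using hcon
  have hinj : Function.Injective (fun q : Fin k => g q) := by
    intro p q h
    have h1 := hg2 p
    have h2 := hg2 q
    have h3 : g p = g q := h
    rw [h3] at h1
    exact h1.symm.trans h2
  obtain ⟨q, hq⟩ := (Finite.injective_iff_surjective.1 hinj) f
  exact hg1 q hq

/-- the configuration of the offline schedule: one server stays at `z`, and the others cover all
points except `σ a` -/
def cfg (z : Uni k) (a : Fin k) (σ : Equiv.Perm (Fin k)) : Fin k → Uni k :=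
  fun i => if i = a then z else (σ i : Uni k)

theorem cfg_self (z : Uni k) (a : Fin k) (σ : Equiv.Perm (Fin k)) : cfg z a σ a = z := by
  simp [cfg]

theorem cfg_symm (z : Uni k) (a : Fin k) (σ : Equiv.Perm (Fin k)) {q : Uni k} (hq : q ≠ σ a) :
    cfg z a σ (σ.symm q) = q ∧ σ.symm q ≠ a := by
  have h : σ.symm q ≠ a := by
    intro h
    apply hq
    rw [← h]; simp
  refine ⟨?_, h⟩
  unfold cfg
  rw [if_neg h]
  exact σ.apply_symm_apply q

/-- one page request and one reset -/
theorem pair_step {x0 : Fin k → Uni k} {f0 : Fin k} {h : List (Uni k)} {X : Fin k → Uni k} {c : ℝ}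
    (z : Uni k) (a : Fin k) (σ : Equiv.Perm (Fin k)) (hX : X a = z)
    (hrun : DRun Version.b x0 f0 h X a c) {q : Uni k} (hq : q ≠ σ a) :
    DRun Version.b x0 f0 ((h ++ [q]) ++ [z]) (cfg z a σ) a (c + mv X (cfg z a σ)) := by
  obtain ⟨h1, h2⟩ := cfg_symm z a σ hq
  have e1 : DRun Version.b x0 f0 (h ++ [q]) (cfg z a σ) (σ.symm q)
      (c + mv X (cfg z a σ)) :=
    DRun.snoc q (cfg z a σ) (σ.symm q) hrun (by rw [cfg_self, hX]) h1 (fun _ => h2)
  have e2 := DRun.snoc z (cfg z a σ) a e1 rfl (cfg_self z a σ) (fun _ => Ne.symm h2)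
  rw [mv_self, add_zero] at e2
  exact e2

theorem mv_cfg (z : Uni k) (a : Fin k) (σ : Equiv.Perm (Fin k)) (b : Fin k) :
    mv (cfg z a σ) (cfg z a ((Equiv.swap a b).trans σ)) ≤ 1 := by
  by_cases hab : a = b
  · rw [hab]
    simp [mv_self]
  · have h : cfg z a ((Equiv.swap a b).trans σ) = Function.update (cfg z a σ) b (σ a : Uni k) := by
      funext i
      by_cases hib : i = b
      · subst hib
        rw [Function.update_self]
        unfold cfg
        rw [if_neg (Ne.symm hab)]
        simp
      · rw [Function.update_of_ne hib]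
        unfold cfg
        by_cases hia : i = a
        · rw [if_pos hia, if_pos hia]
        · rw [if_neg hia, if_neg hia, Equiv.trans_apply, Equiv.swap_apply_of_ne_of_ne hia hib]
    rw [h, mv_update]
    exact uni_dist_le _ _

/-- the request sequences: a reset, then alternately a page and a reset -/
def seq (z : Uni k) (q : List (Uni k) → Uni k) : ℕ → List (Uni k)
  | 0 => [z]
  | n + 1 => (seq z q n ++ [q (seq z q n)]) ++ [z]

/-- a block of `k - 1` page requests costs at most `1` -/
theorem block {x0 : Fin k → Uni k} {f0 : Fin k} (hk : 2 ≤ k) (z : Uni k)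
    (q : List (Uni k) → Uni k) (a : Fin k) (n : ℕ) (X : Fin k → Uni k) (hX : X a = z) (c : ℝ)
    (hrun : DRun Version.b x0 f0 (seq z q n) X a c) :
    ∃ p : Fin k, ∀ σ : Equiv.Perm (Fin k), σ a = p →
      DRun Version.b x0 f0 (seq z q (n + (k - 1))) (cfg z a σ) a (c + mv X (cfg z a σ)) := by
  -- a page which is not requested in the block
  obtain ⟨p, hp⟩ : ∃ p : Fin k, ∀ m, m < k - 1 → (q (seq z q (n + m)) : Fin k) ≠ p := by
    have hcard : ((Finset.range (k - 1)).image
        (fun m => (q (seq z q (n + m)) : Fin k))).card < (Finset.univ : Finset (Fin k)).card := by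
      refine (Finset.card_image_le).trans_lt ?_
      rw [Finset.card_range, Finset.card_univ, Fintype.card_fin]
      omega
    obtain ⟨p, -, hp⟩ := Finset.exists_mem_notMem_of_card_lt_card hcard
    refine ⟨p, fun m hm h => hp ?_⟩
    rw [Finset.mem_image]
    exact ⟨m, Finset.mem_range.2 hm, h⟩
  refine ⟨p, fun σ hσ => ?_⟩
  have main : ∀ m, m < k - 1 → DRun Version.b x0 f0 (seq z q (n + (m + 1))) (cfg z a σ) a
      (c + mv X (cfg z a σ)) := by
    intro m
    induction m with
    | zero =>
      intro hm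
      have h1 := hp 0 hm
      rw [← hσ] at h1
      exact pair_step z a σ hX hrun h1
    | succ m ih =>
      intro hm
      have h1 := hp (m + 1) hm
      rw [← hσ] at h1
      have h2 := pair_step z a σ (cfg_self z a σ) (ih (by omega)) h1
      rw [mv_self, add_zero] at h2
      exact h2
  have := main (k - 2) (by omega)
  have e : k - 2 + 1 = k - 1 := by omega
  rw [e] at this
  exact this

/-- the optimal cost of the request sequences -/
theorem dopt_seq (hk : 2 ≤ k) (x0 : Fin k → Uni k) (f0 : Fin k) (z : Uni k)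
    (q : List (Uni k) → Uni k) (B : ℕ) :
    dopt Version.b x0 f0 (seq z q (B * (k - 1))) ≤ B + 2 * k := by
  obtain ⟨a, ha⟩ : ∃ a : Fin k, a ≠ f0 := by
    have hk0 : 0 < k := by omega
    have hk1 : 1 < k := by omega
    by_cases h : f0 = ⟨0, hk0⟩
    · refine ⟨⟨1, hk1⟩, ?_⟩
      rw [h]
      intro h'
      exact absurd (congrArg Fin.val h') one_ne_zero
    · exact ⟨⟨0, hk0⟩, fun h' => h h'.symm⟩
  obtain ⟨X0, hX0⟩ : ∃ X0, X0 = Function.update x0 a z := ⟨_, rfl⟩
  have hX0a : X0 a = z := by rw [hX0]; simp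
  have r0 : DRun Version.b x0 f0 (seq z q 0) X0 a (0 + mv x0 X0) := by
    have := DRun.snoc z X0 a (DRun.nil (v := Version.b) (x0 := x0) (f0 := f0))
      (by rw [hX0, Function.update_of_ne (Ne.symm ha)]) hX0a (fun _ => ha)
    exact this
  have main : ∀ B : ℕ, 1 ≤ B → ∃ (σ : Equiv.Perm (Fin k)) (c : ℝ), c ≤ B + 2 * k ∧
      DRun Version.b x0 f0 (seq z q (B * (k - 1))) (cfg z a σ) a c := by
    intro B hB
    induction B, hB using Nat.le_induction with
    | base =>
      obtain ⟨p, hp⟩ := block hk z q a 0 X0 hX0a _ r0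
      refine ⟨Equiv.swap a p, 0 + mv x0 X0 + mv X0 (cfg z a (Equiv.swap a p)), ?_, ?_⟩
      · have h1 := uni_mv_le x0 X0
        have h2 := uni_mv_le X0 (cfg z a (Equiv.swap a p))
        push_cast
        linarith
      · have h0 := hp (Equiv.swap a p) (by simp)
        have e : 0 + (k - 1) = 1 * (k - 1) := by ring
        rw [e] at h0
        exact h0
    | succ B hB ih =>
      obtain ⟨σ, c, hc, hrun⟩ := ih
      obtain ⟨p, hp⟩ := block hk z q a _ _ (cfg_self z a σ) _ hrun
      refine ⟨(Equiv.swap a (σ.symm p)).trans σ,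
        c + mv (cfg z a σ) (cfg z a ((Equiv.swap a (σ.symm p)).trans σ)), ?_, ?_⟩
      · have h1 := mv_cfg z a σ (σ.symm p)
        push_cast
        linarith
      · have h0 := hp ((Equiv.swap a (σ.symm p)).trans σ) (by simp)
        have e : (B + 1) * (k - 1) = B * (k - 1) + (k - 1) := by ring
        rw [e]
        exact h0
  rcases Nat.eq_zero_or_pos B with hB | hB
  · subst hB
    rw [zero_mul]
    refine (dopt_le r0).trans ?_
    have h1 := uni_mv_le x0 X0
    have h2 : (0 : ℝ) ≤ k := by positivity
    push_cast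
    linarith
  · obtain ⟨σ, c, hc, hrun⟩ := main B hB
    exact (dopt_le hrun).trans hc

/-- no algorithm for version `b` is better than `(k - 1)`-competitive -/
theorem uni_lower (hk : 2 ≤ k) (x0 : Fin k → Uni k) (f0 : Fin k)
    (D : DAlg Version.b k (Uni k) x0 f0) {C : ℝ} (hD : D.Competitive C) : (k : ℝ) - 1 ≤ C := by
  by_contra hC
  push Not at hC
  obtain ⟨K, hK⟩ := hD
  have hpage : ∀ h : List (Uni k), ∃ q : Uni k, ∀ i, i ≠ D.frz h → D.pos h i ≠ q :=
    fun h => exists_page _ _
  choose q hq using hpage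
  have hk0 : 0 < k := by omega
  obtain ⟨z, -⟩ : ∃ z : Uni k, True := ⟨(⟨0, hk0⟩ : Fin k), trivial⟩
  have hcost : ∀ n : ℕ, (n : ℝ) ≤ D.cost (seq z q n) := by
    intro n
    induction n with
    | zero =>
      rw [Nat.cast_zero]
      exact (D.run _).nonneg
    | succ n ih =>
      show ((n + 1 : ℕ) : ℝ) ≤ D.cost ((seq z q n ++ [q (seq z q n)]) ++ [z])
      rw [D.cost_snoc, D.cost_snoc]
      have h1 := mv_nonneg (D.pos (seq z q n ++ [q (seq z q n)]))
        (D.pos ((seq z q n ++ [q (seq z q n)]) ++ [z]))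
      have h2 := D.changes rfl (seq z q n) (q (seq z q n))
      have h3 := hq (seq z q n) _ h2
      have h4 := D.serves (seq z q n) (q (seq z q n))
      have h5 := dist_le_mv (D.pos (seq z q n)) (D.pos (seq z q n ++ [q (seq z q n)]))
        (D.frz (seq z q n ++ [q (seq z q n)]))
      rw [h4, uni_dist_ne h3] at h5
      push_cast
      linarith
  have hk1 : ((k - 1 : ℕ) : ℝ) = (k : ℝ) - 1 := by
    rw [Nat.cast_sub (by omega)]; simp
  rcases le_or_gt 0 C with hC0 | hC0
  · obtain ⟨B, hB⟩ := exists_nat_gt ((C * (2 * k) + K) / ((k : ℝ) - 1 - C))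
    have hpos : 0 < (k : ℝ) - 1 - C := by linarith
    rw [div_lt_iff₀ hpos] at hB
    have h1 := hcost (B * (k - 1))
    have h2 := hK (seq z q (B * (k - 1)))
    have h3 := mul_le_mul_of_nonneg_left (dopt_seq hk x0 f0 z q B) hC0
    push_cast at h1
    rw [hk1] at h1
    nlinarith
  · obtain ⟨n, hn⟩ := exists_nat_gt K
    have h1 := hcost n
    have h2 := hK (seq z q n)
    have h3 := mul_nonpos_of_nonpos_of_nonneg hC0.le (dopt_nonneg Version.b x0 f0 (seq z q n))
    linarith

theorem uni_comp (x0 : Fin k → Uni k) : comp x0 ≤ 0 := by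
  obtain ⟨A, hA⟩ := uni_alg x0
  exact sInf_le ⟨0, by simp, A, hA⟩

theorem uni_dcomp (hk : 2 ≤ k) (x0 : Fin k → Uni k) (f0 : Fin k) :
    (((k : ℝ) - 1 : ℝ) : EReal) ≤ dcomp Version.b x0 f0 := by
  apply le_sInf
  rintro c ⟨C, rfl, D, hD⟩
  exact EReal.coe_le_coe_iff.2 (uni_lower hk x0 f0 D hD)

end Pool.Agent.Q226.DK
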